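import Pool.Agent.Helper36.LM.Defs

/-!
# LM-I: weak duality
-/

set_option autoImplicit false

namespace Pool.Agent.Helper36.LM

open Module Finset

section weak_duality_aux

variable {K : Type} [Field K] {X : Type} [AddCommGroup X] [Module K X] [FiniteDimensional K X]

theorem wd_finrank_sup_le (M N : Submodule K X) :
    finrank K (M ⊔ N : Submodule K X) ≤ finrank K M + finrank K N := by
  have := Submodule.finrank_sup_add_finrank_inf_eq M N
  omega

theorem wd_finrank_le {ι : Type} (ℓ : ι → Submodule K X) (hℓ : ∀ i, finrank K (ℓ i) = 2)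
    (Z : Finset ι) : finrank K (⨆ i ∈ Z, ℓ i : Submodule K X) ≤ 2 * Z.card := by
  classical
  induction Z using Finset.induction_on with
  | empty => simp
  | insert a s ha ih =>
    rw [Finset.iSup_insert, Finset.card_insert_of_notMem ha]
    have := wd_finrank_sup_le (ℓ a) (⨆ i ∈ s, ℓ i)
    rw [hℓ] at this
    omega

theorem wd_finrank_eq {ι : Type} (ℓ : ι → Submodule K X) (hℓ : ∀ i, finrank K (ℓ i) = 2)
    (Z : Finset ι) (hZ : finrank K (⨆ i ∈ Z, ℓ i : Submodule K X) = 2 * Z.card)
    (Z' : Finset ι) (h : Z' ⊆ Z) :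
    finrank K (⨆ i ∈ Z', ℓ i : Submodule K X) = 2 * Z'.card := by
  classical
  have h1 := wd_finrank_le ℓ hℓ Z'
  have h2 := wd_finrank_le ℓ hℓ (Z \ Z')
  have h3 : (⨆ i ∈ Z, ℓ i : Submodule K X) = (⨆ i ∈ Z', ℓ i) ⊔ (⨆ i ∈ Z \ Z', ℓ i) := by
    rw [← Finset.iSup_union, Finset.union_sdiff_of_subset h]
  have h4 := wd_finrank_sup_le (⨆ i ∈ Z', ℓ i : Submodule K X) (⨆ i ∈ Z \ Z', ℓ i)
  rw [← h3, hZ] at h4
  have h5 : (Z \ Z').card + Z'.card = Z.card := Finset.card_sdiff_add_card_eq_card h
  omega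

end weak_duality_aux

variable {K : Type} [Field K] {E : Type} [AddCommGroup E] [Module K E] [FiniteDimensional K E]
  {ι : Type} [Fintype ι]

theorem weak_duality {X : Type} [AddCommGroup X] [Module K X] [FiniteDimensional K X] {κ : Type}
    [Fintype κ] (ℓ : ι → Submodule K X) (hℓ : ∀ i, finrank K (ℓ i) = 2) (Z : Finset ι)
    (hZ : finrank K (⨆ i ∈ Z, ℓ i : Submodule K X) = 2 * Z.card) (Q : Submodule K X)
    (U : κ → Submodule K X) (hU : ∀ A, Q ≤ U A) (f : ι → κ) (hf : ∀ i ∈ Z, ℓ i ≤ U (f i)) :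
    Z.card ≤ finrank K Q + ∑ A, (finrank K (U A) - finrank K Q) / 2 := by
  classical
  set S : κ → Submodule K X := fun A => ⨆ i ∈ Z.filter (fun i => f i = A), ℓ i with hS
  have hSA : ∀ A, finrank K (S A) = 2 * (Z.filter (fun i => f i = A)).card := fun A =>
    wd_finrank_eq ℓ hℓ Z hZ _ (Finset.filter_subset _ _)
  have hsup : ∀ s : Finset κ, (⨆ A ∈ s, S A : Submodule K X) =
      ⨆ i ∈ Z.filter (fun i => f i ∈ s), ℓ i := by
    intro s
    apply le_antisymm
    · refine iSup₂_le fun A hA => ?_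
      refine iSup₂_le fun i hi => ?_
      rw [Finset.mem_filter] at hi
      exact le_iSup₂_of_le (f := fun i (_ : i ∈ Z.filter (fun i => f i ∈ s)) => ℓ i) i
        (Finset.mem_filter.2 ⟨hi.1, hi.2 ▸ hA⟩) le_rfl
    · refine iSup₂_le fun i hi => ?_
      rw [Finset.mem_filter] at hi
      refine le_iSup₂_of_le (f := fun A (_ : A ∈ s) => S A) (f i) hi.2 ?_
      exact le_iSup₂_of_le (f := fun j (_ : j ∈ Z.filter (fun j => f j = f i)) => ℓ j) i
        (Finset.mem_filter.2 ⟨hi.1, rfl⟩) le_rfl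
  have hsupr : ∀ s : Finset κ, finrank K (⨆ A ∈ s, S A : Submodule K X) =
      2 * (Z.filter (fun i => f i ∈ s)).card := by
    intro s
    rw [hsup]
    exact wd_finrank_eq ℓ hℓ Z hZ _ (Finset.filter_subset _ _)
  have hk : ∀ s : Finset κ, ∑ A ∈ s, finrank K (S A ⊓ Q : Submodule K X) ≤
      finrank K ((⨆ A ∈ s, S A) ⊓ Q : Submodule K X) := by
    intro s
    induction s using Finset.induction_on with
    | empty => simp
    | insert B s hB ih =>
      rw [Finset.sum_insert hB, Finset.iSup_insert]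
      have h1 := hsupr (insert B s)
      have h2 := hsupr s
      have h3 := hSA B
      rw [Finset.iSup_insert] at h1
      have h4 : (Z.filter (fun i => f i ∈ insert B s)).card =
          (Z.filter (fun i => f i = B)).card + (Z.filter (fun i => f i ∈ s)).card := by
        rw [← Finset.card_union_of_disjoint]
        · congr 1
          ext i
          simp only [Finset.mem_filter, Finset.mem_insert, Finset.mem_union]
          tauto
        · rw [Finset.disjoint_filter]
          intro i _ h5 h6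
          exact hB (h5 ▸ h6)
      have h5 := Submodule.finrank_sup_add_finrank_inf_eq (S B) (⨆ A ∈ s, S A)
      have h6 : finrank K (S B ⊓ (⨆ A ∈ s, S A) : Submodule K X) = 0 := by omega
      have h7 : S B ⊓ (⨆ A ∈ s, S A) = ⊥ := Submodule.finrank_eq_zero.1 h6
      have h8 := Submodule.finrank_sup_add_finrank_inf_eq (S B ⊓ Q) ((⨆ A ∈ s, S A) ⊓ Q)
      have h9 : (S B ⊓ Q) ⊓ ((⨆ A ∈ s, S A) ⊓ Q) = ⊥ := by
        rw [eq_bot_iff, ← h7]
        exact inf_le_inf inf_le_left inf_le_left
      rw [h9, finrank_bot, add_zero] at h8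
      have h10 : (S B ⊓ Q) ⊔ ((⨆ A ∈ s, S A) ⊓ Q) ≤ (S B ⊔ (⨆ A ∈ s, S A)) ⊓ Q :=
        sup_le (inf_le_inf_right _ le_sup_left) (inf_le_inf_right _ le_sup_right)
      have h11 := Submodule.finrank_mono h10
      omega
  have hA : ∀ A, (Z.filter (fun i => f i = A)).card ≤
      (finrank K (U A) - finrank K Q) / 2 + finrank K (S A ⊓ Q : Submodule K X) := by
    intro A
    have h1 : S A ⊔ Q ≤ U A := by
      refine sup_le (iSup₂_le fun i hi => ?_) (hU A)
      rw [Finset.mem_filter] at hi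
      have := hf i hi.1
      rwa [hi.2] at this
    have h2 := Submodule.finrank_mono h1
    have h3 := Submodule.finrank_sup_add_finrank_inf_eq (S A) Q
    have h4 := hSA A
    omega
  have h1 : Z.card = ∑ A, (Z.filter (fun i => f i = A)).card :=
    Finset.card_eq_sum_card_fiberwise (fun i _ => Finset.mem_coe.2 (Finset.mem_univ _))
  have h2 : ∑ A, (Z.filter (fun i => f i = A)).card ≤
      ∑ A, ((finrank K (U A) - finrank K Q) / 2 + finrank K (S A ⊓ Q : Submodule K X)) :=
    Finset.sum_le_sum fun A _ => hA A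
  rw [Finset.sum_add_distrib] at h2
  have h3 := hk Finset.univ
  have h4 : finrank K ((⨆ A ∈ (Finset.univ : Finset κ), S A) ⊓ Q : Submodule K X) ≤
      finrank K Q := Submodule.finrank_mono inf_le_right
  omega

end Pool.Agent.Helper36.LM
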